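import Pool.Agent.Lib.MP_7aa09c_an.Defs

/-!
Elementary facts about the pointwise BPB property and the BPBp.
-/

namespace Pool.Agent.Lib.MP_7aa09c_an

variable (𝕜 : Type*) [RCLike 𝕜]

theorem PointwiseBPB.bpbp {X Y : Type*} [NormedAddCommGroup X] [NormedSpace 𝕜 X]
    [NormedAddCommGroup Y] [NormedSpace 𝕜 Y] (h : PointwiseBPB 𝕜 X Y) : BPBp 𝕜 X Y := by
  intro ε hε
  obtain ⟨η, hη, H⟩ := h ε hε
  refine ⟨η, hη, fun T hT x₀ hx₀ hTx => ?_⟩
  obtain ⟨S, hS, hSx, hST⟩ := H T hT x₀ hx₀ hTx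
  exact ⟨x₀, S, hx₀, hS, hSx, by simpa using hε, hST⟩

/-- BPBp is invariant under isometric isomorphism of the range. -/
theorem BPBp.congr_range {X Y W : Type*} [NormedAddCommGroup X] [NormedSpace 𝕜 X]
    [NormedAddCommGroup Y] [NormedSpace 𝕜 Y] [NormedAddCommGroup W] [NormedSpace 𝕜 W]
    (e : Y ≃ₗᵢ[𝕜] W) (h : BPBp 𝕜 X Y) : BPBp 𝕜 X W := by
  intro ε hε
  obtain ⟨η, hη, H⟩ := h ε hε
  refine ⟨η, hη, fun T hT x₀ hx₀ hTx => ?_⟩
  let e' : W →L[𝕜] Y := (e.symm.toContinuousLinearEquiv : W →L[𝕜] Y)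
  let e'' : Y →L[𝕜] W := (e.toContinuousLinearEquiv : Y →L[𝕜] W)
  have norm1 : ∀ A : X →L[𝕜] W, ‖e'.comp A‖ = ‖A‖ := by
    intro A
    apply le_antisymm
    · refine ContinuousLinearMap.opNorm_le_bound _ (norm_nonneg _) fun x => ?_
      simpa [e'] using A.le_opNorm x
    · refine ContinuousLinearMap.opNorm_le_bound _ (norm_nonneg _) fun x => ?_
      simpa [e'] using (e'.comp A).le_opNorm x
  have norm2 : ∀ A : X →L[𝕜] Y, ‖e''.comp A‖ = ‖A‖ := by
    intro A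
    apply le_antisymm
    · refine ContinuousLinearMap.opNorm_le_bound _ (norm_nonneg _) fun x => ?_
      simpa [e''] using A.le_opNorm x
    · refine ContinuousLinearMap.opNorm_le_bound _ (norm_nonneg _) fun x => ?_
      simpa [e''] using (e''.comp A).le_opNorm x
  obtain ⟨x, S, hx, hS, hSx, hxx, hST⟩ := H (e'.comp T) (by rw [norm1, hT]) x₀ hx₀
    (by simpa [e'] using hTx)
  refine ⟨x, e''.comp S, hx, by rw [norm2, hS], by simpa [e''] using hSx, hxx, ?_⟩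
  have : e''.comp S - T = e''.comp (S - e'.comp T) := by
    ext y
    simp [e', e'']
  rw [this, norm2]
  exact hST

end Pool.Agent.Lib.MP_7aa09c_an
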