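import Pool.Agent.Lib.MP_7aa09c_an.Basic

/-!
If the range space `Y` has a system of functionals and vectors as in Lindenstrauss' property
beta (with constant `1/2`), then the pointwise BPB property passes from `(X, 𝕜)` to `(X, Y)`.
-/

namespace Pool.Agent.Lib.MP_7aa09c_an

variable (𝕜 : Type*) [RCLike 𝕜]

theorem pointwiseBPB_of_beta {X Y K : Type*} [NormedAddCommGroup X] [NormedSpace 𝕜 X]
    [NormedAddCommGroup Y] [NormedSpace 𝕜 Y]
    (φ : K → (Y →L[𝕜] 𝕜)) (u : K → Y)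
    (hφ : ∀ k y, ‖φ k y‖ ≤ ‖y‖)
    (hnorm : ∀ (y : Y) (r : ℝ), 0 ≤ r → (∀ k, ‖φ k y‖ ≤ r) → ‖y‖ ≤ r)
    (hu : ∀ k, ‖u k‖ ≤ 1) (h1 : ∀ k, φ k (u k) = 1)
    (h2 : ∀ j k, j ≠ k → ‖φ j (u k)‖ ≤ 1 / 2)
    (hX : PointwiseBPB 𝕜 X 𝕜) : PointwiseBPB 𝕜 X Y := by
  intro ε hε
  set ε₁ : ℝ := ε / 4 with hε₁
  have hε₁pos : 0 < ε₁ := by positivity
  obtain ⟨η₀, hη₀, H⟩ := hX (ε₁ / 2) (by positivity)
  refine ⟨min η₀ (min (ε₁ / 2) (1 / 2)), by positivity, fun T hT x₀ hx₀ hTx => ?_⟩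
  set η : ℝ := min η₀ (min (ε₁ / 2) (1 / 2)) with hη
  have hη1 : η ≤ η₀ := min_le_left _ _
  have hη2 : η ≤ ε₁ / 2 := (min_le_right _ _).trans (min_le_left _ _)
  have hη3 : η ≤ 1 / 2 := (min_le_right _ _).trans (min_le_right _ _)
  -- a functional almost norming `T x₀`
  obtain ⟨k, hk⟩ : ∃ k, 1 - η < ‖φ k (T x₀)‖ := by
    by_contra hcon
    push Not at hcon
    have := hnorm (T x₀) (1 - η) (by linarith) hcon
    linarith
  set f : X →L[𝕜] 𝕜 := (φ k).comp T with hf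
  have hfle : ‖f‖ ≤ 1 := by
    refine ContinuousLinearMap.opNorm_le_bound _ zero_le_one fun x => ?_
    calc ‖f x‖ ≤ ‖T x‖ := hφ k (T x)
      _ ≤ ‖T‖ * ‖x‖ := T.le_opNorm x
      _ = 1 * ‖x‖ := by rw [hT]
  have hfx : 1 - η < ‖f x₀‖ := hk
  have hfge : 1 - η < ‖f‖ := by
    have := f.le_opNorm x₀
    rw [hx₀, mul_one] at this
    linarith
  have hfpos : 0 < ‖f‖ := by linarith
  set f' : X →L[𝕜] 𝕜 := ((‖f‖⁻¹ : ℝ) : 𝕜) • f with hf'
  have hf'norm : ‖f'‖ = 1 := by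
    rw [hf', norm_smul, RCLike.norm_ofReal, abs_of_pos (by positivity)]
    field_simp
  have hf'x : 1 - η₀ < ‖f' x₀‖ := by
    have : ‖f' x₀‖ = ‖f‖⁻¹ * ‖f x₀‖ := by
      rw [hf', smul_apply, norm_smul, RCLike.norm_ofReal,
        abs_of_pos (by positivity)]
    rw [this]
    have h3 : 1 ≤ ‖f‖⁻¹ := (one_le_inv₀ hfpos).2 hfle
    have h4 : 1 * ‖f x₀‖ ≤ ‖f‖⁻¹ * ‖f x₀‖ := mul_le_mul_of_nonneg_right h3 (norm_nonneg _)
    linarith
  obtain ⟨ψ, hψ, hψx, hψf⟩ := H f' hf'norm x₀ hx₀ hf'x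
  have hff' : ‖f' - f‖ < ε₁ / 2 := by
    have : f' - f = ((‖f‖⁻¹ - 1 : ℝ) : 𝕜) • f := by
      ext x
      simp only [hf', sub_apply, smul_apply, smul_eq_mul]
      push_cast
      ring
    have h3 : 1 ≤ ‖f‖⁻¹ := (one_le_inv₀ hfpos).2 hfle
    rw [this, norm_smul, RCLike.norm_ofReal, abs_of_nonneg (by linarith), sub_mul,
      inv_mul_cancel₀ hfpos.ne']
    linarith
  have hψf : ‖ψ - f‖ ≤ ε₁ := by
    have : ψ - f = (ψ - f') + (f' - f) := by abel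
    rw [this]
    refine (norm_add_le _ _).trans ?_
    linarith
  -- the perturbation functional
  set g : X →L[𝕜] 𝕜 := ((1 + ε₁ : ℝ) : 𝕜) • ψ - f with hg
  have hgnorm : ‖g‖ ≤ 2 * ε₁ := by
    have : g = (ψ - f) + ((ε₁ : ℝ) : 𝕜) • ψ := by
      ext x
      simp only [hg, sub_apply, smul_apply, smul_eq_mul,
        add_apply]
      push_cast
      ring
    rw [this]
    refine (norm_add_le _ _).trans ?_
    rw [norm_smul, RCLike.norm_ofReal, abs_of_pos hε₁pos, hψ]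
    linarith
  set S₀ : X →L[𝕜] Y := T + g.smulRight (u k) with hS₀
  have hS₀k : ∀ x, φ k (S₀ x) = ((1 + ε₁ : ℝ) : 𝕜) * ψ x := by
    intro x
    simp [hS₀, hg, hf, h1]
  have hS₀le : ‖S₀‖ ≤ 1 + ε₁ := by
    refine ContinuousLinearMap.opNorm_le_bound _ (by positivity) fun x => ?_
    refine hnorm _ _ (by positivity) fun j => ?_
    by_cases hjk : j = k
    · subst hjk
      rw [hS₀k, norm_mul, RCLike.norm_ofReal, abs_of_pos (by positivity)]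
      have := ψ.le_opNorm x
      rw [hψ, one_mul] at this
      gcongr
    · have e1 : φ j (S₀ x) = φ j (T x) + g x * φ j (u k) := by
        simp [hS₀]
      rw [e1]
      have e2 : ‖φ j (T x)‖ ≤ ‖x‖ := by
        refine (hφ j _).trans ?_
        have := T.le_opNorm x
        rwa [hT, one_mul] at this
      have e3 : ‖g x‖ ≤ 2 * ε₁ * ‖x‖ :=
        (g.le_opNorm x).trans (mul_le_mul_of_nonneg_right hgnorm (norm_nonneg _))
      have e4 : ‖g x * φ j (u k)‖ ≤ 2 * ε₁ * ‖x‖ * (1 / 2) := by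
        rw [norm_mul]
        exact mul_le_mul e3 (h2 j k hjk) (norm_nonneg _) (by positivity)
      calc ‖φ j (T x) + g x * φ j (u k)‖ ≤ ‖φ j (T x)‖ + ‖g x * φ j (u k)‖ := norm_add_le _ _
        _ ≤ ‖x‖ + 2 * ε₁ * ‖x‖ * (1 / 2) := add_le_add e2 e4
        _ = (1 + ε₁) * ‖x‖ := by ring
  set S : X →L[𝕜] Y := (((1 + ε₁)⁻¹ : ℝ) : 𝕜) • S₀ with hS
  have hSle : ‖S‖ ≤ 1 := by
    rw [hS, norm_smul, RCLike.norm_ofReal, abs_of_pos (by positivity)]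
    calc (1 + ε₁)⁻¹ * ‖S₀‖ ≤ (1 + ε₁)⁻¹ * (1 + ε₁) := by gcongr
      _ = 1 := by field_simp
  have hSx : 1 ≤ ‖S x₀‖ := by
    have e1 : ‖φ k (S x₀)‖ = 1 := by
      have : φ k (S x₀) = (((1 + ε₁)⁻¹ : ℝ) : 𝕜) * φ k (S₀ x₀) := by
        simp [hS]
      rw [this, hS₀k, norm_mul, norm_mul, RCLike.norm_ofReal, RCLike.norm_ofReal,
        abs_of_pos (by positivity), abs_of_pos (by positivity), hψx]
      field_simp
    rw [← e1]
    exact hφ k _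
  have hSx' : ‖S x₀‖ = 1 := by
    refine le_antisymm ?_ hSx
    have := S.le_opNorm x₀
    rw [hx₀, mul_one] at this
    linarith
  have hSnorm : ‖S‖ = 1 := by
    refine le_antisymm hSle ?_
    have := S.le_opNorm x₀
    rw [hx₀, mul_one] at this
    linarith
  refine ⟨S, hSnorm, hSx', ?_⟩
  have hd1 : ‖S - S₀‖ ≤ ε₁ := by
    have : S - S₀ = (((1 + ε₁)⁻¹ - 1 : ℝ) : 𝕜) • S₀ := by
      ext x
      simp only [hS, sub_apply, smul_apply]
      push_cast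
      rw [sub_smul, one_smul]
    have hinv : (1 + ε₁)⁻¹ ≤ 1 := inv_le_one_of_one_le₀ (by linarith)
    rw [this, norm_smul, RCLike.norm_ofReal, abs_of_nonpos (by linarith)]
    calc -((1 + ε₁)⁻¹ - 1) * ‖S₀‖ ≤ -((1 + ε₁)⁻¹ - 1) * (1 + ε₁) := by
          apply mul_le_mul_of_nonneg_left hS₀le; linarith
      _ = ε₁ := by field_simp; ring
  have hd2 : ‖S₀ - T‖ ≤ 2 * ε₁ := by
    have : S₀ - T = g.smulRight (u k) := by rw [hS₀]; abel
    rw [this, ContinuousLinearMap.norm_smulRight_apply]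
    calc ‖g‖ * ‖u k‖ ≤ 2 * ε₁ * 1 := mul_le_mul hgnorm (hu k) (norm_nonneg _) (by positivity)
      _ = 2 * ε₁ := by ring
  have : S - T = (S - S₀) + (S₀ - T) := by abel
  rw [this]
  refine (norm_add_le _ _).trans_lt ?_
  linarith

end Pool.Agent.Lib.MP_7aa09c_an
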