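import Mathlib

/-!
Definitions for problem MP_7aa09c_an: the pointwise Bishop-Phelps-Bollobas property,
the Bishop-Phelps-Bollobas property, and one-complemented subspaces.
-/

namespace Pool.Agent.Lib.MP_7aa09c_an

variable (𝕜 : Type*) [RCLike 𝕜]

/-- The pair `(X, Y)` has the pointwise BPB property: for each `ε > 0` there is `η > 0` such that
for every norm-one operator `T : X → Y` and every unit vector `x₀` with `1 - η < ‖T x₀‖` there is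
a norm-one operator `S` with `‖S x₀‖ = 1` and `‖S - T‖ < ε`. -/
def PointwiseBPB (X Y : Type*) [NormedAddCommGroup X] [NormedSpace 𝕜 X]
    [NormedAddCommGroup Y] [NormedSpace 𝕜 Y] : Prop :=
  ∀ ε : ℝ, 0 < ε → ∃ η : ℝ, 0 < η ∧
    ∀ T : X →L[𝕜] Y, ‖T‖ = 1 → ∀ x₀ : X, ‖x₀‖ = 1 → 1 - η < ‖T x₀‖ →
      ∃ S : X →L[𝕜] Y, ‖S‖ = 1 ∧ ‖S x₀‖ = 1 ∧ ‖S - T‖ < ε

/-- The pair `(X, Y)` has the Bishop-Phelps-Bollobas property: for each `ε > 0` there is `η > 0`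
such that for every norm-one operator `T : X → Y` and every unit vector `x₀` with
`1 - η < ‖T x₀‖` there are a unit vector `x` and an operator `S` with `‖S‖ = ‖S x‖ = 1`,
`‖x - x₀‖ < ε` and `‖S - T‖ < ε`. -/
def BPBp (X Y : Type*) [NormedAddCommGroup X] [NormedSpace 𝕜 X]
    [NormedAddCommGroup Y] [NormedSpace 𝕜 Y] : Prop :=
  ∀ ε : ℝ, 0 < ε → ∃ η : ℝ, 0 < η ∧
    ∀ T : X →L[𝕜] Y, ‖T‖ = 1 → ∀ x₀ : X, ‖x₀‖ = 1 → 1 - η < ‖T x₀‖ →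
      ∃ (x : X) (S : X →L[𝕜] Y), ‖x‖ = 1 ∧ ‖S‖ = 1 ∧ ‖S x‖ = 1 ∧ ‖x - x₀‖ < ε ∧ ‖S - T‖ < ε

/-- The subspace `Y₁` of `Y` is one-complemented: it is the range of a bounded linear projection
of norm one on `Y`. -/
def OneComplemented {Y : Type*} [NormedAddCommGroup Y] [NormedSpace 𝕜 Y]
    (Y₁ : Submodule 𝕜 Y) : Prop :=
  ∃ P : Y →L[𝕜] Y, (∀ y, P (P y) = P y) ∧ ‖P‖ = 1 ∧ (∀ y, y ∈ Y₁ ↔ ∃ z, P z = y)

end Pool.Agent.Lib.MP_7aa09c_an
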