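import Mathlib

/-!
Strictly convex renorming: for an injective operator `J : V → H` into a Hilbert space,
the space `V` with the norm `‖v‖ + ‖J v‖`.
-/

namespace Pool.Agent.Lib.MP_7aa09c_an

variable {𝕜 V H : Type*} [RCLike 𝕜] [NormedAddCommGroup V] [NormedSpace 𝕜 V]
  [NormedAddCommGroup H] [InnerProductSpace 𝕜 H]

/-- The space `V` with the norm `‖v‖ + ‖J v‖`. -/
def Renorm (_J : V →L[𝕜] H) : Type _ := V

namespace Renorm

variable (J : V →L[𝕜] H)

noncomputable instance : AddCommGroup (Renorm J) := inferInstanceAs (AddCommGroup V)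

noncomputable instance : Module 𝕜 (Renorm J) := inferInstanceAs (Module 𝕜 V)

/-- The identity as a linear equivalence. -/
noncomputable def of : Renorm J ≃ₗ[𝕜] V := LinearEquiv.refl 𝕜 V

/-- The graph map. -/
noncomputable def toProd : Renorm J →ₗ[𝕜] WithLp 1 (V × H) where
  toFun v := WithLp.toLp 1 (of J v, J (of J v))
  map_add' v w := by
    rw [map_add, map_add]; rfl
  map_smul' c v := by
    rw [map_smul, map_smul]; rfl

theorem toProd_injective : Function.Injective (toProd J) := by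
  intro v w h
  exact congrArg (fun x : WithLp 1 (V × H) => x.fst) h

noncomputable instance : NormedAddCommGroup (Renorm J) :=
  NormedAddCommGroup.induced (Renorm J) (WithLp 1 (V × H)) (toProd J) (toProd_injective J)

noncomputable instance : NormedSpace 𝕜 (Renorm J) :=
  NormedSpace.induced 𝕜 (Renorm J) (WithLp 1 (V × H)) (toProd J)

theorem norm_def (v : Renorm J) : ‖v‖ = ‖of J v‖ + ‖J (of J v)‖ := by
  change ‖toProd J v‖ = _
  rw [WithLp.prod_norm_eq_of_L1]
  rfl

theorem norm_of_le (v : Renorm J) : ‖of J v‖ ≤ ‖v‖ := by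
  rw [norm_def]
  have := norm_nonneg (J (of J v))
  linarith

instance [CompleteSpace V] [CompleteSpace H] : CompleteSpace (Renorm J) := by
  have hiso : Isometry (toProd J) := AddMonoidHomClass.isometry_of_norm (toProd J) fun v => rfl
  rw [completeSpace_iff_isComplete_range hiso.isUniformInducing]
  apply IsClosed.isComplete
  have : Set.range (toProd J) = {x : WithLp 1 (V × H) | J x.fst = x.snd} := by
    ext x
    constructor
    · rintro ⟨v, rfl⟩
      rfl
    · intro hx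
      refine ⟨(of J).symm x.fst, ?_⟩
      have hx' : J x.fst = x.snd := hx
      change WithLp.toLp 1 (x.fst, J x.fst) = x
      rw [hx']
      rfl
  rw [this]
  exact isClosed_eq (by fun_prop) (by fun_prop)

/-- Equality in the triangle inequality in a Hilbert space. -/
theorem smul_eq_of_norm_add {x y : H} (h : ‖x + y‖ = ‖x‖ + ‖y‖) :
    ((‖y‖ : ℝ) : 𝕜) • x = ((‖x‖ : ℝ) : 𝕜) • y := by
  have h1 : ‖x + y‖ ^ 2 = ‖x‖ ^ 2 + 2 * RCLike.re (inner 𝕜 x y) + ‖y‖ ^ 2 := norm_add_sq x y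
  have h2 : RCLike.re (inner 𝕜 x y) = ‖x‖ * ‖y‖ := by
    rw [h] at h1
    nlinarith
  have h3 : ‖((‖y‖ : ℝ) : 𝕜) • x - ((‖x‖ : ℝ) : 𝕜) • y‖ ^ 2 = 0 := by
    rw [@norm_sub_sq 𝕜, inner_smul_left, inner_smul_right, norm_smul, norm_smul]
    simp only [RCLike.norm_ofReal, abs_norm, RCLike.conj_ofReal]
    rw [← mul_assoc, ← RCLike.ofReal_mul, RCLike.re_ofReal_mul, h2]
    ring
  have h4 : ‖((‖y‖ : ℝ) : 𝕜) • x - ((‖x‖ : ℝ) : 𝕜) • y‖ = 0 := by
    simpa using h3
  exact sub_eq_zero.1 (norm_eq_zero.1 h4)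

/-- Strict convexity of the new norm. -/
theorem eq_of_norm_add (hJ : Function.Injective J) {v w : Renorm J} (hv : ‖v‖ ≤ 1) (hw : ‖w‖ ≤ 1)
    (h : 2 ≤ ‖v + w‖) : v = w := by
  rw [norm_def] at hv hw h
  rw [map_add, map_add] at h
  have e1 := norm_add_le (of J v) (of J w)
  have e2 := norm_add_le (J (of J v)) (J (of J w))
  have e3 : ‖J (of J v) + J (of J w)‖ = ‖J (of J v)‖ + ‖J (of J w)‖ := by linarith
  have e4 : ‖of J v + of J w‖ = ‖of J v‖ + ‖of J w‖ := by linarith
  have e5 : ‖of J v‖ + ‖J (of J v)‖ = 1 := by linarith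
  have e6 : ‖of J w‖ + ‖J (of J w)‖ = 1 := by linarith
  have e7 := smul_eq_of_norm_add (𝕜 := 𝕜) e3
  have e8 : ((‖J (of J w)‖ : ℝ) : 𝕜) • of J v = ((‖J (of J v)‖ : ℝ) : 𝕜) • of J w := by
    apply hJ
    rw [map_smul, map_smul]
    exact e7
  have hv0 : of J v ≠ 0 := by
    intro h0
    rw [h0, map_zero, norm_zero, norm_zero] at e5
    norm_num at e5
  have hw0 : of J w ≠ 0 := by
    intro h0
    rw [h0, map_zero, norm_zero, norm_zero] at e6
    norm_num at e6
  have hJv : 0 < ‖J (of J v)‖ := norm_pos_iff.2 fun h0 => hv0 (hJ (by rw [h0, map_zero]))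
  have hJw : 0 < ‖J (of J w)‖ := norm_pos_iff.2 fun h0 => hw0 (hJ (by rw [h0, map_zero]))
  have e9 : ‖J (of J w)‖ * ‖of J v‖ = ‖J (of J v)‖ * ‖of J w‖ := by
    have := congrArg norm e8
    rw [norm_smul, norm_smul, RCLike.norm_ofReal, RCLike.norm_ofReal, abs_norm, abs_norm] at this
    exact this
  have e10 : ‖J (of J w)‖ = ‖J (of J v)‖ := by nlinarith
  rw [e10] at e8
  have e11 : ((‖J (of J v)‖ : ℝ) : 𝕜) ≠ 0 := by exact_mod_cast hJv.ne'
  have e12 : of J v = of J w := smul_right_injective V e11 e8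
  exact (of J).injective e12

end Renorm

end Pool.Agent.Lib.MP_7aa09c_an
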