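import Pool.Agent.Lib.MP_7aa09c_an.Basic
import Pool.Agent.Lib.MP_7aa09c_an.Renorm

/-!
If `Z` is a finite-dimensional strictly convex space then `(StrongDual Z, 𝕜)` has the
pointwise BPB property.
-/

namespace Pool.Agent.Lib.MP_7aa09c_an

variable (𝕜 : Type*) [RCLike 𝕜] {E : Type*} [NormedAddCommGroup E] [NormedSpace 𝕜 E]

theorem unifConv [FiniteDimensional 𝕜 E]
    (hsc : ∀ v w : E, ‖v‖ ≤ 1 → ‖w‖ ≤ 1 → 2 ≤ ‖v + w‖ → v = w) (ε : ℝ) (hε : 0 < ε) :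
    ∃ δ : ℝ, 0 < δ ∧ ∀ v w : E, ‖v‖ ≤ 1 → ‖w‖ ≤ 1 → 2 - δ < ‖v + w‖ → ‖v - w‖ < ε := by
  have : ProperSpace E := FiniteDimensional.proper_rclike 𝕜 E
  let K : Set (E × E) :=
    (Metric.closedBall (0 : E) 1 ×ˢ Metric.closedBall (0 : E) 1) ∩ {p | ε ≤ ‖p.1 - p.2‖}
  have hK : IsCompact K := by
    refine ((isCompact_closedBall (0 : E) 1).prod (isCompact_closedBall (0 : E) 1)).inter_right ?_
    exact isClosed_le continuous_const (by fun_prop)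
  by_cases hne : K.Nonempty
  · obtain ⟨p, hp, hmax⟩ := hK.exists_isMaxOn hne
      (f := fun p : E × E => ‖p.1 + p.2‖) (by fun_prop)
    obtain ⟨⟨hp1, hp2⟩, hp3⟩ := hp
    have hp1' : ‖p.1‖ ≤ 1 := by simpa using hp1
    have hp2' : ‖p.2‖ ≤ 1 := by simpa using hp2
    have hp3' : ε ≤ ‖p.1 - p.2‖ := hp3
    have hlt : ‖p.1 + p.2‖ < 2 := by
      by_contra hcon
      push Not at hcon
      have := hsc _ _ hp1' hp2' hcon
      rw [this, sub_self, norm_zero] at hp3'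
      linarith
    refine ⟨2 - ‖p.1 + p.2‖, by linarith, fun v w hv hw hvw => ?_⟩
    by_contra hcon
    push Not at hcon
    have hmem : (v, w) ∈ K := ⟨⟨by simpa using hv, by simpa using hw⟩, hcon⟩
    have : ‖v + w‖ ≤ ‖p.1 + p.2‖ := hmax hmem
    linarith
  · refine ⟨1, one_pos, fun v w hv hw _ => ?_⟩
    by_contra hcon
    push Not at hcon
    exact hne ⟨(v, w), ⟨⟨by simpa using hv, by simpa using hw⟩, hcon⟩⟩

/-- In finite dimension the norm of a functional is attained. -/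
theorem exists_attain [FiniteDimensional 𝕜 E] (f : StrongDual 𝕜 E) (hf : ‖f‖ = 1) :
    ∃ z : E, ‖z‖ ≤ 1 ∧ f z = 1 := by
  have : ProperSpace E := FiniteDimensional.proper_rclike 𝕜 E
  obtain ⟨z, hz, hmax⟩ := (isCompact_closedBall (0 : E) 1).exists_isMaxOn
    ⟨0, by simp⟩ (f := fun z => ‖f z‖) (by fun_prop)
  have hz' : ‖z‖ ≤ 1 := by simpa using hz
  have h1 : ‖f‖ ≤ ‖f z‖ := by
    refine ContinuousLinearMap.opNorm_le_bound _ (norm_nonneg _) fun w => ?_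
    by_cases hw : w = 0
    · subst hw; simp
    have hw' : ‖w‖ ≠ 0 := norm_ne_zero_iff.2 hw
    have h2 : ‖f (((‖w‖⁻¹ : ℝ) : 𝕜) • w)‖ ≤ ‖f z‖ := by
      apply hmax
      rw [mem_closedBall_zero_iff, norm_smul, RCLike.norm_ofReal, abs_of_nonneg (by positivity),
        inv_mul_cancel₀ hw']
    rw [map_smul, norm_smul, RCLike.norm_ofReal, abs_of_nonneg (by positivity)] at h2
    have hwpos : 0 < ‖w‖ := norm_pos_iff.2 hw
    field_simp at h2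
    rw [mul_comm]
    exact h2
  have h3 : ‖f z‖ = 1 := by
    apply le_antisymm
    · have := f.le_opNorm z
      rw [hf, one_mul] at this
      linarith
    · linarith
  have h4 : f z ≠ 0 := by
    intro h0; rw [h0, norm_zero] at h3; norm_num at h3
  refine ⟨(f z)⁻¹ • z, ?_, ?_⟩
  · rw [norm_smul, norm_inv, h3]; simpa using hz'
  · rw [map_smul, smul_eq_mul, inv_mul_cancel₀ h4]

theorem doubleDual_surjective [FiniteDimensional 𝕜 E] :
    Function.Surjective (NormedSpace.inclusionInDoubleDualLi 𝕜 (E := E)) := by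
  have e1 : Module.finrank 𝕜 (StrongDual 𝕜 E) = Module.finrank 𝕜 E := by
    rw [← LinearEquiv.finrank_eq (LinearMap.toContinuousLinearMap (𝕜 := 𝕜) (E := E) (F' := 𝕜))]
    exact Subspace.dual_finrank_eq
  have : FiniteDimensional 𝕜 (StrongDual 𝕜 E) :=
    LinearEquiv.finiteDimensional
      (LinearMap.toContinuousLinearMap (𝕜 := 𝕜) (E := E) (F' := 𝕜))
  have e2 : Module.finrank 𝕜 (StrongDual 𝕜 (StrongDual 𝕜 E)) =
      Module.finrank 𝕜 (StrongDual 𝕜 E) := by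
    rw [← LinearEquiv.finrank_eq
      (LinearMap.toContinuousLinearMap (𝕜 := 𝕜) (E := StrongDual 𝕜 E) (F' := 𝕜))]
    exact Subspace.dual_finrank_eq
  have : FiniteDimensional 𝕜 (StrongDual 𝕜 (StrongDual 𝕜 E)) :=
    LinearEquiv.finiteDimensional
      (LinearMap.toContinuousLinearMap (𝕜 := 𝕜) (E := StrongDual 𝕜 E) (F' := 𝕜))
  have e3 : Module.finrank 𝕜 E = Module.finrank 𝕜 (StrongDual 𝕜 (StrongDual 𝕜 E)) := by
    rw [e2, e1]
  let f : E →ₗ[𝕜] StrongDual 𝕜 (StrongDual 𝕜 E) :=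
    (NormedSpace.inclusionInDoubleDualLi 𝕜 (E := E)).toLinearMap
  have h := LinearMap.injective_iff_surjective_of_finrank_eq_finrank (K := 𝕜) (V := E)
    (V₂ := StrongDual 𝕜 (StrongDual 𝕜 E)) (f := f) e3
  exact h.1 (NormedSpace.inclusionInDoubleDualLi 𝕜 (E := E)).injective

theorem pointwiseBPB_dual [FiniteDimensional 𝕜 E]
    (hsc : ∀ v w : E, ‖v‖ ≤ 1 → ‖w‖ ≤ 1 → 2 ≤ ‖v + w‖ → v = w) :
    PointwiseBPB 𝕜 (StrongDual 𝕜 E) 𝕜 := by
  intro ε hε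
  obtain ⟨δ, hδ, H⟩ := unifConv 𝕜 hsc ε hε
  refine ⟨min δ 1, by positivity, fun T hT x₀ hx₀ hTx => ?_⟩
  obtain ⟨z, rfl⟩ := doubleDual_surjective 𝕜 (E := E) T
  rw [LinearIsometry.norm_map] at hT
  obtain ⟨z₀, hz₀, hxz₀⟩ := exists_attain 𝕜 x₀ hx₀
  have hTx' : 1 - min δ 1 < ‖x₀ z‖ := hTx
  have hm1 : min δ 1 ≤ δ := min_le_left _ _
  have hm2 : min δ 1 ≤ 1 := min_le_right _ _
  have hc : x₀ z ≠ 0 := by
    intro h0; rw [h0, norm_zero] at hTx'; linarith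
  have hcn : (0 : ℝ) < ‖x₀ z‖ := norm_pos_iff.2 hc
  have hcn' : ((‖x₀ z‖ : ℝ) : 𝕜) ≠ 0 := by exact_mod_cast hcn.ne'
  -- unimodular factor
  set θ : 𝕜 := ((‖x₀ z‖ : ℝ) : 𝕜) / x₀ z with hθ
  have hθn : ‖θ‖ = 1 := by
    rw [hθ, norm_div, RCLike.norm_ofReal, abs_norm, div_self hcn.ne']
  have hθ0 : θ ≠ 0 := by
    intro h0; rw [h0, norm_zero] at hθn; norm_num at hθn
  have hθx : x₀ (θ • z) = ((‖x₀ z‖ : ℝ) : 𝕜) := by
    rw [map_smul, smul_eq_mul, hθ, div_mul_cancel₀ _ hc]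
  have hz₀1 : ‖z₀‖ = 1 := by
    apply le_antisymm hz₀
    have := x₀.le_opNorm z₀
    rw [hxz₀, hx₀, one_mul, norm_one] at this
    exact this
  have hsum : 2 - δ < ‖θ • z + z₀‖ := by
    have h1 := x₀.le_opNorm (θ • z + z₀)
    rw [hx₀, one_mul, map_add, hθx, hxz₀] at h1
    have h2 : ‖((‖x₀ z‖ : ℝ) : 𝕜) + 1‖ = ‖x₀ z‖ + 1 := by
      have : ((‖x₀ z‖ : ℝ) : 𝕜) + 1 = ((‖x₀ z‖ + 1 : ℝ) : 𝕜) := by push_cast; ring
      rw [this, RCLike.norm_ofReal, abs_of_pos (by linarith)]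
    rw [h2] at h1
    linarith
  have hclose : ‖θ • z - z₀‖ < ε :=
    H _ _ (by rw [norm_smul, hθn, one_mul]; exact hT.le) hz₀ hsum
  refine ⟨NormedSpace.inclusionInDoubleDualLi 𝕜 (E := E) (θ⁻¹ • z₀), ?_, ?_, ?_⟩
  · rw [LinearIsometry.norm_map, norm_smul, norm_inv, hθn, hz₀1]
    norm_num
  · change ‖x₀ (θ⁻¹ • z₀)‖ = 1
    rw [map_smul, hxz₀, smul_eq_mul, mul_one, norm_inv, hθn, inv_one]
  · have h5 := (NormedSpace.inclusionInDoubleDualLi 𝕜 (E := E)).map_sub (θ⁻¹ • z₀) z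
    change ‖(NormedSpace.inclusionInDoubleDualLi 𝕜 (E := E) (θ⁻¹ • z₀) :
      StrongDual 𝕜 (StrongDual 𝕜 E)) - NormedSpace.inclusionInDoubleDualLi 𝕜 (E := E) z‖ < ε
    rw [← h5, LinearIsometry.norm_map]
    have : θ⁻¹ • z₀ - z = (-θ⁻¹) • (θ • z - z₀) := by
      rw [smul_sub, smul_smul, neg_mul, inv_mul_cancel₀ hθ0]
      module
    rw [this, norm_smul, norm_neg, norm_inv, hθn, inv_one, one_mul]
    exact hclose

end Pool.Agent.Lib.MP_7aa09c_an
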