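import Pool.Agent.Lib.MP_7aa09c_an.Domain

/-!
A pair `(X, W)` failing the BPBp, where `X` is the dual of a two-dimensional strictly convex
space and `W` is a strictly convex renorming of the space of bounded sequences.
-/

open scoped ENNReal

namespace Pool.Agent.Lib.MP_7aa09c_an

variable (𝕜 : Type*) [RCLike 𝕜]

/-! ### The domain -/

/-- Formal identity from the `ℓ¹`-plane to the Euclidean plane. -/
noncomputable def J0 : WithLp 1 (𝕜 × 𝕜) →L[𝕜] WithLp 2 (𝕜 × 𝕜) :=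
  ((WithLp.prodContinuousLinearEquiv 2 𝕜 𝕜 𝕜).symm : (𝕜 × 𝕜) →L[𝕜] WithLp 2 (𝕜 × 𝕜)).comp
    (WithLp.prodContinuousLinearEquiv 1 𝕜 𝕜 𝕜 : WithLp 1 (𝕜 × 𝕜) →L[𝕜] (𝕜 × 𝕜))

theorem J0_injective : Function.Injective (J0 𝕜) := by
  intro x y h
  have h1 : (WithLp.prodContinuousLinearEquiv 1 𝕜 𝕜 𝕜) x =
      (WithLp.prodContinuousLinearEquiv 1 𝕜 𝕜 𝕜) y :=
    (WithLp.prodContinuousLinearEquiv 2 𝕜 𝕜 𝕜).symm.injective h
  exact (WithLp.prodContinuousLinearEquiv 1 𝕜 𝕜 𝕜).injective h1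

/-- The strictly convex plane. -/
abbrev Z : Type _ := Renorm (J0 𝕜)

/-- Vectors of the plane. -/
noncomputable def mkZ (a b : 𝕜) : Z 𝕜 := (Renorm.of (J0 𝕜)).symm (WithLp.toLp 1 (a, b))

/-- First coordinate. -/
noncomputable def c1 (z : Z 𝕜) : 𝕜 := (Renorm.of (J0 𝕜) z).fst

/-- Second coordinate. -/
noncomputable def c2 (z : Z 𝕜) : 𝕜 := (Renorm.of (J0 𝕜) z).snd

theorem normZ (z : Z 𝕜) :
    ‖z‖ = ‖c1 𝕜 z‖ + ‖c2 𝕜 z‖ + √(‖c1 𝕜 z‖ ^ 2 + ‖c2 𝕜 z‖ ^ 2) := by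
  rw [Renorm.norm_def, WithLp.prod_norm_eq_of_L1, WithLp.prod_norm_eq_of_L2]
  rfl

theorem c_le (z : Z 𝕜) : 2 * ‖c1 𝕜 z‖ + ‖c2 𝕜 z‖ ≤ ‖z‖ := by
  rw [normZ]
  have h : ‖c1 𝕜 z‖ ≤ √(‖c1 𝕜 z‖ ^ 2 + ‖c2 𝕜 z‖ ^ 2) :=
    Real.le_sqrt_of_sq_le (by nlinarith [sq_nonneg ‖c2 𝕜 z‖])
  linarith

/-- The functional with coordinates `(α, β)`. -/
noncomputable def fn (α β : 𝕜) : StrongDual 𝕜 (Z 𝕜) :=
  LinearMap.mkContinuous
    { toFun := fun z => α * c1 𝕜 z + β * c2 𝕜 z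
      map_add' := fun z w => by
        simp only [c1, c2, map_add, WithLp.add_fst, WithLp.add_snd]
        ring
      map_smul' := fun c z => by
        simp only [c1, c2, map_smul, WithLp.smul_fst, WithLp.smul_snd, smul_eq_mul,
          RingHom.id_apply]
        ring } (max (‖α‖ / 2) ‖β‖) (fun z => by
    have h1 := c_le 𝕜 z
    have h2 : ‖α‖ ≤ 2 * max (‖α‖ / 2) ‖β‖ := by
      have := le_max_left (‖α‖ / 2) ‖β‖
      linarith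
    have h3 : ‖β‖ ≤ max (‖α‖ / 2) ‖β‖ := le_max_right _ _
    have h4 : 0 ≤ max (‖α‖ / 2) ‖β‖ := (norm_nonneg _).trans h3
    calc ‖α * c1 𝕜 z + β * c2 𝕜 z‖ ≤ ‖α‖ * ‖c1 𝕜 z‖ + ‖β‖ * ‖c2 𝕜 z‖ := by
          refine (norm_add_le _ _).trans ?_
          rw [norm_mul, norm_mul]
      _ ≤ (2 * max (‖α‖ / 2) ‖β‖) * ‖c1 𝕜 z‖ + max (‖α‖ / 2) ‖β‖ * ‖c2 𝕜 z‖ := by gcongr
      _ = max (‖α‖ / 2) ‖β‖ * (2 * ‖c1 𝕜 z‖ + ‖c2 𝕜 z‖) := by ring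
      _ ≤ max (‖α‖ / 2) ‖β‖ * ‖z‖ := by gcongr)

theorem fn_apply (α β : 𝕜) (z : Z 𝕜) : fn 𝕜 α β z = α * c1 𝕜 z + β * c2 𝕜 z := rfl

theorem fn_norm_le (α β : 𝕜) : ‖fn 𝕜 α β‖ ≤ max (‖α‖ / 2) ‖β‖ :=
  LinearMap.mkContinuous_norm_le _ ((norm_nonneg _).trans (le_max_right _ _)) _

theorem norm_e1 : ‖mkZ 𝕜 1 0‖ = 2 := by
  rw [normZ]
  have h1 : c1 𝕜 (mkZ 𝕜 1 0) = 1 := rfl
  have h2 : c2 𝕜 (mkZ 𝕜 1 0) = 0 := rfl
  rw [h1, h2]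
  simp
  norm_num

theorem norm_e2 : ‖mkZ 𝕜 0 1‖ = 2 := by
  rw [normZ]
  have h1 : c1 𝕜 (mkZ 𝕜 0 1) = 0 := rfl
  have h2 : c2 𝕜 (mkZ 𝕜 0 1) = 1 := rfl
  rw [h1, h2]
  simp
  norm_num

theorem eval_e1_le (x : StrongDual 𝕜 (Z 𝕜)) : ‖x (mkZ 𝕜 1 0)‖ ≤ 2 * ‖x‖ := by
  have := x.le_opNorm (mkZ 𝕜 1 0)
  rw [norm_e1] at this
  linarith

theorem eval_e2_le (x : StrongDual 𝕜 (Z 𝕜)) : ‖x (mkZ 𝕜 0 1)‖ ≤ 2 * ‖x‖ := by
  have := x.le_opNorm (mkZ 𝕜 0 1)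
  rw [norm_e2] at this
  linarith

theorem eq_fn (x : StrongDual 𝕜 (Z 𝕜)) : x = fn 𝕜 (x (mkZ 𝕜 1 0)) (x (mkZ 𝕜 0 1)) := by
  ext z
  rw [fn_apply]
  have h : z = c1 𝕜 z • mkZ 𝕜 1 0 + c2 𝕜 z • mkZ 𝕜 0 1 := by
    apply (Renorm.of (J0 𝕜)).injective
    rw [map_add, map_smul, map_smul]
    change _ = c1 𝕜 z • (WithLp.toLp 1 ((1 : 𝕜), (0 : 𝕜))) +
      c2 𝕜 z • (WithLp.toLp 1 ((0 : 𝕜), (1 : 𝕜)))
    rw [← WithLp.toLp_smul, ← WithLp.toLp_smul, ← WithLp.toLp_add]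
    apply (WithLp.ofLp_injective 1)
    apply Prod.ext
    · simp [c1]
    · simp [c2]
  conv_lhs => rw [h]
  rw [map_add, map_smul, map_smul, smul_eq_mul, smul_eq_mul]
  ring

theorem norm_x0 : ‖fn 𝕜 2 0‖ = 1 := by
  apply le_antisymm
  · refine (fn_norm_le 𝕜 2 0).trans ?_
    simp
  · have h := eval_e1_le 𝕜 (fn 𝕜 2 0)
    have h1 : fn 𝕜 2 0 (mkZ 𝕜 1 0) = 2 := by
      rw [fn_apply]
      change (2 : 𝕜) * 1 + 0 * 0 = 2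
      ring
    rw [h1, RCLike.norm_ofNat] at h
    linarith

theorem norm_d : ‖fn 𝕜 0 1‖ ≤ 1 := by
  refine (fn_norm_le 𝕜 0 1).trans ?_
  simp

/-! ### The range -/

/-- Diagonal operator from bounded sequences to square summable sequences. -/
noncomputable def J1 : lp (fun _ : ℕ => 𝕜) ∞ →L[𝕜] lp (fun _ : ℕ => 𝕜) 2 := by
  have key : ∀ (y : lp (fun _ : ℕ => 𝕜) ∞) (s : Finset ℕ),
      ∑ i ∈ s, ‖(2⁻¹ : 𝕜) ^ i * y i‖ ^ (2 : ℝ≥0∞).toReal ≤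
        (2 * ‖y‖) ^ (2 : ℝ≥0∞).toReal := by
    intro y s
    have h2 : (2 : ℝ≥0∞).toReal = (2 : ℕ) := by simp
    simp only [h2, Real.rpow_natCast]
    have h3 : ∀ i ∈ s, ‖(2⁻¹ : 𝕜) ^ i * y i‖ ^ 2 ≤ (1 / 4 : ℝ) ^ i * ‖y‖ ^ 2 := by
      intro i _
      rw [norm_mul, norm_pow, norm_inv, RCLike.norm_ofNat, mul_pow]
      have h4 : ‖y i‖ ≤ ‖y‖ := lp.norm_apply_le_norm ENNReal.top_ne_zero y i
      have h5 : (((2 : ℝ)⁻¹) ^ i) ^ 2 = (1 / 4 : ℝ) ^ i := by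
        rw [← pow_mul, mul_comm, pow_mul]
        norm_num
      rw [h5]
      gcongr
    refine (Finset.sum_le_sum h3).trans ?_
    rw [← Finset.sum_mul]
    have h6 : ∑ i ∈ s, (1 / 4 : ℝ) ^ i ≤ 4 := by
      have h7 : Summable fun i : ℕ => (1 / 4 : ℝ) ^ i :=
        summable_geometric_of_lt_one (by norm_num) (by norm_num)
      refine (h7.sum_le_tsum s (fun i _ => by positivity)).trans ?_
      rw [tsum_geometric_of_lt_one (by norm_num) (by norm_num)]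
      norm_num
    rw [mul_pow]
    have h8 : 0 ≤ ‖y‖ ^ 2 := by positivity
    nlinarith
  refine LinearMap.mkContinuous
    { toFun := fun y => (⟨fun i => (2⁻¹ : 𝕜) ^ i * y i, memℓp_gen' (key y)⟩ :
        lp (fun _ : ℕ => 𝕜) 2)
      map_add' := fun y z => by
        ext i
        change (2⁻¹ : 𝕜) ^ i * (y i + z i) = (2⁻¹ : 𝕜) ^ i * y i + (2⁻¹ : 𝕜) ^ i * z i
        ring
      map_smul' := fun c y => by
        ext i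
        change (2⁻¹ : 𝕜) ^ i * (c * y i) = c * ((2⁻¹ : 𝕜) ^ i * y i)
        ring } 2 (fun y => ?_)
  exact lp.norm_le_of_forall_sum_le (by norm_num) (by positivity) (key y)

theorem J1_apply (y : lp (fun _ : ℕ => 𝕜) ∞) (i : ℕ) : J1 𝕜 y i = (2⁻¹ : 𝕜) ^ i * y i := rfl

theorem J1_injective : Function.Injective (J1 𝕜) := by
  intro y z h
  ext i
  have h1 := congrArg (fun f : lp (fun _ : ℕ => 𝕜) 2 => f i) h
  simp only [J1_apply] at h1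
  exact mul_left_cancel₀ (pow_ne_zero _ (by norm_num)) h1

/-- The range space. -/
abbrev W : Type _ := Renorm (J1 𝕜)

/-- The unit vectors in the range space. -/
noncomputable def ee (n : ℕ) (a : 𝕜) : W 𝕜 := (Renorm.of (J1 𝕜)).symm (lp.single ∞ n a)

theorem J1_single (n : ℕ) (a : 𝕜) :
    J1 𝕜 (lp.single ∞ n a) = lp.single 2 n ((2⁻¹ : 𝕜) ^ n * a) := by
  ext i
  rw [J1_apply]
  by_cases h : i = n
  · subst h
    rw [lp.single_apply_self, lp.single_apply_self]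
  · rw [lp.single_apply_ne _ _ _ h, lp.single_apply_ne _ _ _ h, mul_zero]

theorem norm_J1_single (n : ℕ) (a : 𝕜) : ‖J1 𝕜 (lp.single ∞ n a)‖ = (1 / 2) ^ n * ‖a‖ := by
  rw [J1_single, lp.norm_single (by norm_num), norm_mul, norm_pow, norm_inv, RCLike.norm_ofNat]
  norm_num

theorem norm_ee (n : ℕ) (a : 𝕜) : ‖ee 𝕜 n a‖ = ‖a‖ + (1 / 2) ^ n * ‖a‖ := by
  rw [Renorm.norm_def]
  change ‖(lp.single ∞ n a : lp (fun _ : ℕ => 𝕜) ∞)‖ + ‖J1 𝕜 (lp.single ∞ n a)‖ = _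
  rw [lp.norm_single (by simp), norm_J1_single]

theorem norm_ee_add_le (n : ℕ) (a b : 𝕜) (r : ℝ) (ha : ‖a‖ ≤ r) (hb : ‖b‖ ≤ r) :
    ‖ee 𝕜 n a + ee 𝕜 (n + 1) b‖ ≤ (1 + 2 * (1 / 2) ^ n) * r := by
  have hr : 0 ≤ r := (norm_nonneg a).trans ha
  rw [Renorm.norm_def, map_add, map_add]
  change ‖(lp.single ∞ n a : lp (fun _ : ℕ => 𝕜) ∞) + lp.single ∞ (n + 1) b‖ +
    ‖J1 𝕜 (lp.single ∞ n a) + J1 𝕜 (lp.single ∞ (n + 1) b)‖ ≤ _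
  have h1 : ‖(lp.single ∞ n a : lp (fun _ : ℕ => 𝕜) ∞) + lp.single ∞ (n + 1) b‖ ≤ r := by
    refine lp.norm_le_of_forall_le hr fun i => ?_
    change ‖(lp.single ∞ n a : lp (fun _ : ℕ => 𝕜) ∞) i +
      (lp.single ∞ (n + 1) b : lp (fun _ : ℕ => 𝕜) ∞) i‖ ≤ r
    by_cases hin : i = n
    · subst hin
      rw [lp.single_apply_self, lp.single_apply_ne _ _ _ (by omega), add_zero]
      exact ha
    · rw [lp.single_apply_ne _ _ _ hin, zero_add]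
      by_cases hin' : i = n + 1
      · subst hin'
        rw [lp.single_apply_self]
        exact hb
      · rw [lp.single_apply_ne _ _ _ hin', norm_zero]
        exact hr
  have h2 : ‖J1 𝕜 (lp.single ∞ n a) + J1 𝕜 (lp.single ∞ (n + 1) b)‖ ≤
      2 * (1 / 2) ^ n * r := by
    refine (norm_add_le _ _).trans ?_
    rw [norm_J1_single, norm_J1_single, pow_succ]
    have h3 : (0 : ℝ) ≤ (1 / 2) ^ n := by positivity
    have h4 : (1 / 2 : ℝ) ^ n * ‖a‖ ≤ (1 / 2) ^ n * r := by gcongr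
    have h5 : (1 / 2 : ℝ) ^ n * (1 / 2) * ‖b‖ ≤ (1 / 2) ^ n * r := by
      have : (1 / 2 : ℝ) ^ n * (1 / 2) ≤ (1 / 2) ^ n := by nlinarith
      calc (1 / 2 : ℝ) ^ n * (1 / 2) * ‖b‖ ≤ (1 / 2) ^ n * ‖b‖ := by gcongr
        _ ≤ (1 / 2) ^ n * r := by gcongr
    linarith
  calc _ ≤ r + 2 * (1 / 2) ^ n * r := add_le_add h1 h2
    _ = (1 + 2 * (1 / 2) ^ n) * r := by ring

end Pool.Agent.Lib.MP_7aa09c_an
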