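import Pool.Agent.Lib.MP_7aa09c_an.Fail

/-!
The pair `(X, W)` fails the BPBp.
-/

open scoped ENNReal

namespace Pool.Agent.Lib.MP_7aa09c_an

variable (𝕜 : Type*) [RCLike 𝕜]

/-- The two-dimensional domain space. -/
abbrev X : Type _ := StrongDual 𝕜 (Z 𝕜)

instance : FiniteDimensional 𝕜 (Z 𝕜) :=
  LinearEquiv.finiteDimensional
    ((Renorm.of (J0 𝕜)).trans (WithLp.linearEquiv 1 𝕜 (𝕜 × 𝕜))).symm

theorem pointwiseBPB_X : PointwiseBPB 𝕜 (X 𝕜) 𝕜 :=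
  pointwiseBPB_dual 𝕜 fun _ _ hv hw h => Renorm.eq_of_norm_add (J0 𝕜) (J0_injective 𝕜) hv hw h

/-- Operators attaining their norm at a point of the flat part of the sphere kill the
direction of the segment. -/
theorem kill (S : X 𝕜 →L[𝕜] W 𝕜) (hS : ‖S‖ ≤ 1) (x : X 𝕜) (hx : ‖x‖ = 1) (hSx : ‖S x‖ = 1)
    (hβ : ‖x (mkZ 𝕜 0 1)‖ < 1) : S (fn 𝕜 0 1) = 0 := by
  set α : 𝕜 := x (mkZ 𝕜 1 0) with hα
  set β : 𝕜 := x (mkZ 𝕜 0 1) with hβdef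
  set t : ℝ := 1 - ‖β‖ with ht
  have htpos : 0 < t := by linarith
  have hxfn : x = fn 𝕜 α β := eq_fn 𝕜 x
  have hα2 : ‖α‖ ≤ 2 := by
    have := eval_e1_le 𝕜 x
    rw [hx] at this
    linarith
  have hbound : ∀ s : 𝕜, ‖s‖ ≤ t → ‖x + s • fn 𝕜 0 1‖ ≤ 1 := by
    intro s hs
    have h1 : x + s • fn 𝕜 0 1 = fn 𝕜 α (β + s) := by
      rw [hxfn]
      ext z
      change (α * c1 𝕜 z + β * c2 𝕜 z) + s * (0 * c1 𝕜 z + 1 * c2 𝕜 z) =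
        α * c1 𝕜 z + (β + s) * c2 𝕜 z
      ring
    rw [h1]
    refine (fn_norm_le 𝕜 _ _).trans ?_
    apply max_le
    · linarith
    · refine (norm_add_le _ _).trans ?_
      linarith
  have hSle : ∀ s : 𝕜, ‖s‖ ≤ t → ‖S (x + s • fn 𝕜 0 1)‖ ≤ 1 := by
    intro s hs
    calc ‖S (x + s • fn 𝕜 0 1)‖ ≤ ‖S‖ * ‖x + s • fn 𝕜 0 1‖ := S.le_opNorm _
      _ ≤ 1 * 1 := mul_le_mul hS (hbound s hs) (norm_nonneg _) zero_le_one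
      _ = 1 := one_mul 1
  have htn : ‖((t : ℝ) : 𝕜)‖ ≤ t := by
    rw [RCLike.norm_ofReal, abs_of_pos htpos]
  have htn' : ‖(-(t : ℝ) : 𝕜)‖ ≤ t := by
    rw [norm_neg]
    exact htn
  have heq := Renorm.eq_of_norm_add (J1 𝕜) (J1_injective 𝕜) (hSle _ htn) (hSle _ htn') (by
    have : S (x + ((t : ℝ) : 𝕜) • fn 𝕜 0 1) + S (x + (-(t : ℝ) : 𝕜) • fn 𝕜 0 1) =
        (2 : 𝕜) • S x := by
      rw [← map_add, ← map_smul]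
      congr 1
      module
    rw [this, norm_smul, hSx, RCLike.norm_ofNat, mul_one])
  rw [map_add, map_add, map_smul, map_smul, add_right_inj] at heq
  have h2 : ((2 * t : ℝ) : 𝕜) • S (fn 𝕜 0 1) = 0 := by
    have h3 : ((2 * t : ℝ) : 𝕜) • S (fn 𝕜 0 1) =
        ((t : ℝ) : 𝕜) • S (fn 𝕜 0 1) - (-(t : ℝ) : 𝕜) • S (fn 𝕜 0 1) := by
      push_cast
      module
    rw [h3, heq, sub_self]
  have h4 : ((2 * t : ℝ) : 𝕜) ≠ 0 := by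
    have : (2 * t : ℝ) ≠ 0 := by positivity
    exact_mod_cast this
  exact (smul_eq_zero.1 h2).resolve_left h4

/-- The operators. -/
noncomputable def T0 (n : ℕ) : X 𝕜 →L[𝕜] W 𝕜 :=
  ((1 / 2 : 𝕜) • (NormedSpace.inclusionInDoubleDual 𝕜 (Z 𝕜) (mkZ 𝕜 1 0) :
    X 𝕜 →L[𝕜] 𝕜)).smulRight (ee 𝕜 n 1) +
  ((1 / 2 : 𝕜) • (NormedSpace.inclusionInDoubleDual 𝕜 (Z 𝕜) (mkZ 𝕜 0 1) :
    X 𝕜 →L[𝕜] 𝕜)).smulRight (ee 𝕜 (n + 1) 1)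

theorem ee_smul (n : ℕ) (a : 𝕜) : a • ee 𝕜 n 1 = ee 𝕜 n a := by
  change a • (Renorm.of (J1 𝕜)).symm (lp.single ∞ n (1 : 𝕜)) =
    (Renorm.of (J1 𝕜)).symm (lp.single ∞ n a)
  rw [← map_smul, ← lp.single_smul, smul_eq_mul, mul_one]

theorem T0_apply (n : ℕ) (x : X 𝕜) :
    T0 𝕜 n x = ee 𝕜 n (1 / 2 * x (mkZ 𝕜 1 0)) + ee 𝕜 (n + 1) (1 / 2 * x (mkZ 𝕜 0 1)) := by
  rw [← ee_smul, ← ee_smul 𝕜 (n + 1)]
  rfl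

theorem T0_norm_le (n : ℕ) : ‖T0 𝕜 n‖ ≤ 1 + 2 * (1 / 2) ^ n := by
  refine ContinuousLinearMap.opNorm_le_bound _ (by positivity) fun x => ?_
  rw [T0_apply]
  apply norm_ee_add_le
  · have := eval_e1_le 𝕜 x
    rw [norm_mul]
    simp only [one_div, norm_inv, RCLike.norm_ofNat]
    linarith
  · have := eval_e2_le 𝕜 x
    rw [norm_mul]
    simp only [one_div, norm_inv, RCLike.norm_ofNat]
    linarith

theorem ee_zero (n : ℕ) : ee 𝕜 n 0 = 0 := by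
  change (Renorm.of (J1 𝕜)).symm (lp.single ∞ n (0 : 𝕜)) = 0
  rw [lp.single_zero, map_zero]

theorem T0_x0 (n : ℕ) : 1 ≤ ‖T0 𝕜 n (fn 𝕜 2 0)‖ := by
  have h1 : fn 𝕜 2 0 (mkZ 𝕜 1 0) = 2 := by
    change (2 : 𝕜) * 1 + 0 * 0 = 2
    ring
  have h2 : fn 𝕜 2 0 (mkZ 𝕜 0 1) = 0 := by
    change (2 : 𝕜) * 0 + 0 * 1 = 0
    ring
  rw [T0_apply, h1, h2, mul_zero, ee_zero, add_zero, norm_ee]
  have h3 : ‖(1 / 2 * 2 : 𝕜)‖ = 1 := by norm_num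
  rw [h3]
  have : (0 : ℝ) ≤ (1 / 2) ^ n * 1 := by positivity
  linarith

theorem T0_d (n : ℕ) : 1 / 2 ≤ ‖T0 𝕜 n (fn 𝕜 0 1)‖ := by
  have h1 : fn 𝕜 0 1 (mkZ 𝕜 1 0) = 0 := by
    change (0 : 𝕜) * 1 + 1 * 0 = 0
    ring
  have h2 : fn 𝕜 0 1 (mkZ 𝕜 0 1) = 1 := by
    change (0 : 𝕜) * 0 + 1 * 1 = 1
    ring
  rw [T0_apply, h1, h2, mul_zero, ee_zero, zero_add, norm_ee]
  have h3 : ‖(1 / 2 * 1 : 𝕜)‖ = 1 / 2 := by simp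
  rw [h3]
  have : (0 : ℝ) ≤ (1 / 2) ^ (n + 1) * (1 / 2) := by positivity
  linarith

theorem exists_normalized {X Y : Type*} [NormedAddCommGroup X] [NormedSpace 𝕜 X]
    [NormedAddCommGroup Y] [NormedSpace 𝕜 Y] (A : X →L[𝕜] Y) (hA : 0 < ‖A‖) :
    ∃ T : X →L[𝕜] Y, ‖T‖ = 1 ∧ ∀ x, ‖T x‖ = ‖A‖⁻¹ * ‖A x‖ := by
  refine ⟨((‖A‖⁻¹ : ℝ) : 𝕜) • A, ?_, fun x => ?_⟩
  · rw [norm_smul, RCLike.norm_ofReal, abs_of_pos (by positivity)]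
    exact inv_mul_cancel₀ hA.ne'
  · have : (((‖A‖⁻¹ : ℝ) : 𝕜) • A) x = ((‖A‖⁻¹ : ℝ) : 𝕜) • A x := rfl
    rw [this, norm_smul, RCLike.norm_ofReal, abs_of_pos (by positivity)]

theorem not_BPBp : ¬ BPBp 𝕜 (X 𝕜) (W 𝕜) := by
  intro h
  obtain ⟨η, hη, H⟩ := h (1 / 8) (by norm_num)
  -- choose `n` with `2 * 2 ^ (-n)` small
  obtain ⟨n, hn⟩ : ∃ n : ℕ, (1 / 2 : ℝ) ^ n < η / 2 :=
    exists_pow_lt_of_lt_one (by positivity) (by norm_num)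
  set q : ℝ := (1 / 2) ^ n with hq
  have hq0 : 0 < q := by positivity
  have hq1 : q ≤ 1 := pow_le_one₀ (by norm_num) (by norm_num)
  set c : ℝ := ‖T0 𝕜 n‖ with hc
  have hc1 : c ≤ 1 + 2 * q := T0_norm_le 𝕜 n
  have hc0 : 1 ≤ c := by
    have h1 := (T0 𝕜 n).le_opNorm (fn 𝕜 2 0)
    rw [norm_x0, mul_one] at h1
    exact (T0_x0 𝕜 n).trans h1
  have hcpos : 0 < c := by linarith
  obtain ⟨T, hTn, hTa'⟩ := exists_normalized 𝕜 (T0 𝕜 n) hcpos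
  have hTa : ∀ x, ‖T x‖ = c⁻¹ * ‖T0 𝕜 n x‖ := hTa'
  have hTx : 1 - η < ‖T (fn 𝕜 2 0)‖ := by
    rw [hTa]
    have h1 : c⁻¹ * 1 ≤ c⁻¹ * ‖T0 𝕜 n (fn 𝕜 2 0)‖ := by
      apply mul_le_mul_of_nonneg_left (T0_x0 𝕜 n) (by positivity)
    have h2 : 1 - 2 * q ≤ c⁻¹ := by
      rw [inv_eq_one_div, le_div_iff₀ hcpos]
      by_cases hq2 : 1 - 2 * q ≤ 0
      · nlinarith
      · push Not at hq2
        nlinarith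
    linarith
  obtain ⟨x, S, hx, hS, hSx, hxx, hST⟩ := H T hTn (fn 𝕜 2 0) (norm_x0 𝕜) hTx
  have hβ : ‖x (mkZ 𝕜 0 1)‖ < 1 := by
    have h1 := eval_e2_le 𝕜 (x - fn 𝕜 2 0)
    have h2 : (x - fn 𝕜 2 0) (mkZ 𝕜 0 1) = x (mkZ 𝕜 0 1) := by
      change x (mkZ 𝕜 0 1) - ((2 : 𝕜) * 0 + 0 * 1) = _
      ring
    rw [h2] at h1
    linarith
  have hSd := kill 𝕜 S hS.le x hx hSx hβ
  have h1 : ‖T (fn 𝕜 0 1)‖ ≤ 1 / 8 := by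
    have h2 : (S - T) (fn 𝕜 0 1) = - T (fn 𝕜 0 1) := by
      change S (fn 𝕜 0 1) - T (fn 𝕜 0 1) = _
      rw [hSd, zero_sub]
    have h3 := (S - T).le_opNorm (fn 𝕜 0 1)
    rw [h2, norm_neg] at h3
    have h4 := norm_d 𝕜
    have h5 : ‖S - T‖ * ‖fn 𝕜 0 1‖ ≤ 1 / 8 * 1 :=
      mul_le_mul hST.le h4 (norm_nonneg _) (by norm_num)
    linarith
  rw [hTa] at h1
  have h2 := T0_d 𝕜 n
  have h3 : (1 / 3 : ℝ) ≤ c⁻¹ := by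
    rw [one_div]
    exact inv_anti₀ hcpos (by linarith)
  have h4 : (1 / 3 : ℝ) * (1 / 2) ≤ c⁻¹ * ‖T0 𝕜 n (fn 𝕜 0 1)‖ :=
    mul_le_mul h3 h2 (by norm_num) (by positivity)
  linarith

end Pool.Agent.Lib.MP_7aa09c_an
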