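import Pool.Agent.Lib.MP_7aa09c_an.Range
import Pool.Agent.Lib.MP_7aa09c_an.Fail2

/-!
The common example: `(X, Y)` has the pointwise BPB property but `(X, Y₁)` fails the BPBp.
-/

namespace Pool.Agent.Lib.MP_7aa09c_an

theorem finrank_X (𝕜 : Type*) [RCLike 𝕜] : Module.finrank 𝕜 (X 𝕜) = 2 := by
  have e1 : Module.finrank 𝕜 (StrongDual 𝕜 (Z 𝕜)) = Module.finrank 𝕜 (Z 𝕜) := by
    rw [← LinearEquiv.finrank_eq
      (LinearMap.toContinuousLinearMap (𝕜 := 𝕜) (E := Z 𝕜) (F' := 𝕜))]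
    exact Subspace.dual_finrank_eq
  rw [e1, LinearEquiv.finrank_eq
    ((Renorm.of (J0 𝕜)).trans (WithLp.linearEquiv 1 𝕜 (𝕜 × 𝕜)))]
  simp

theorem exists_example (𝕜 : Type) [RCLike 𝕜] :
    ∃ (X Y : Type) (_ : NormedAddCommGroup X) (_ : NormedSpace 𝕜 X) (_ : CompleteSpace X)
      (_ : NormedAddCommGroup Y) (_ : NormedSpace 𝕜 Y) (_ : CompleteSpace Y)
      (Y₁ : Submodule 𝕜 Y),
      Module.finrank 𝕜 X = 2 ∧ IsClosed (Y₁ : Set Y) ∧ OneComplemented 𝕜 Y₁ ∧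
        PointwiseBPB 𝕜 X Y ∧ ¬ BPBp 𝕜 X Y₁ := by
  have : Nontrivial (W 𝕜) := by
    refine ⟨ee 𝕜 0 1, 0, fun h => ?_⟩
    have h1 := norm_ee 𝕜 0 1
    rw [h, norm_zero] at h1
    norm_num at h1
  refine ⟨X 𝕜, YY 𝕜 (W 𝕜), inferInstance, inferInstance, inferInstance, inferInstance,
    inferInstance, inferInstance, Y1 𝕜 (W 𝕜), finrank_X 𝕜, isClosed_Y1 𝕜 (W 𝕜),
    oneComplemented_Y1 𝕜 (W 𝕜), pointwiseBPB_YY 𝕜 (W 𝕜) (pointwiseBPB_X 𝕜), fun h => ?_⟩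
  exact not_BPBp 𝕜 (h.congr_range 𝕜 (iso 𝕜 (W 𝕜)))

end Pool.Agent.Lib.MP_7aa09c_an
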