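import Pool.Agent.Lib.MP_7aa09c_an.Beta

/-!
Every Banach space `W` is isometric to a one-complemented subspace of a Banach space `Y`
to which `pointwiseBPB_of_beta` applies.
-/

open scoped ENNReal

namespace Pool.Agent.Lib.MP_7aa09c_an

variable (𝕜 : Type*) [RCLike 𝕜] (W : Type*) [NormedAddCommGroup W] [NormedSpace 𝕜 W]

/-- Index set: the unit sphere of `W`. -/
abbrev Idx : Type _ := {v : W // ‖v‖ = 1}

/-- Bounded families indexed by the unit sphere. -/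
abbrev GG : Type _ := lp (fun _ : Idx W => 𝕜) ∞

/-- A norming functional at each point of the unit sphere. -/
theorem exists_support (v : Idx W) : ∃ g : StrongDual 𝕜 W, ‖g‖ = 1 ∧ g v.1 = 1 := by
  obtain ⟨g, hg, hgv⟩ := exists_dual_vector 𝕜 v.1 (by rw [v.2]; exact one_ne_zero)
  exact ⟨g, hg, by rw [hgv, v.2]; simp⟩

/-- The chosen support functional. -/
noncomputable def supp (v : Idx W) : StrongDual 𝕜 W := (exists_support 𝕜 W v).choose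

theorem supp_norm (v : Idx W) : ‖supp 𝕜 W v‖ = 1 := (exists_support 𝕜 W v).choose_spec.1

theorem supp_self (v : Idx W) : supp 𝕜 W v v.1 = 1 := (exists_support 𝕜 W v).choose_spec.2

theorem supp_le (v : Idx W) (w : W) : ‖supp 𝕜 W v w‖ ≤ ‖w‖ := by
  have := (supp 𝕜 W v).le_opNorm w
  rwa [supp_norm, one_mul] at this

/-- The canonical isometric embedding of `W` in the space of bounded families. -/
noncomputable def embLin : W →ₗ[𝕜] GG 𝕜 W where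
  toFun w := ⟨fun v => supp 𝕜 W v w, memℓp_infty ⟨‖w‖, by
    rintro _ ⟨v, rfl⟩
    exact supp_le 𝕜 W v w⟩⟩
  map_add' w₁ w₂ := by
    ext v
    exact map_add (supp 𝕜 W v) w₁ w₂
  map_smul' c w := by
    ext v
    simp

theorem embLin_apply (w : W) (v : Idx W) : embLin 𝕜 W w v = supp 𝕜 W v w := rfl

theorem embLin_norm (w : W) : ‖embLin 𝕜 W w‖ = ‖w‖ := by
  apply le_antisymm
  · refine lp.norm_le_of_forall_le (norm_nonneg _) fun v => ?_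
    rw [embLin_apply]
    exact supp_le 𝕜 W v w
  · by_cases hw : w = 0
    · subst hw; simp
    have hw' : ‖w‖ ≠ 0 := norm_ne_zero_iff.2 hw
    let v : Idx W := ⟨((‖w‖⁻¹ : ℝ) : 𝕜) • w, by
      rw [norm_smul, RCLike.norm_ofReal, abs_of_nonneg (by positivity), inv_mul_cancel₀ hw']⟩
    have h1 : supp 𝕜 W v w = ((‖w‖ : ℝ) : 𝕜) := by
      have h2 := supp_self 𝕜 W v
      have h3 : supp 𝕜 W v (((‖w‖⁻¹ : ℝ) : 𝕜) • w) = ((‖w‖⁻¹ : ℝ) : 𝕜) * supp 𝕜 W v w := by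
        rw [map_smul, smul_eq_mul]
      have h4 : ((‖w‖⁻¹ : ℝ) : 𝕜) * supp 𝕜 W v w = 1 := by
        rw [← h3]; exact h2
      have h5 : ((‖w‖ : ℝ) : 𝕜) ≠ 0 := by exact_mod_cast hw'
      push_cast at h4
      field_simp at h4
      exact h4
    have h2 := lp.norm_apply_le_norm ENNReal.top_ne_zero (embLin 𝕜 W w) v
    rw [embLin_apply, h1, RCLike.norm_ofReal, abs_of_nonneg (norm_nonneg _)] at h2
    exact h2

/-- The embedding as a linear isometry. -/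
noncomputable def emb : W →ₗᵢ[𝕜] GG 𝕜 W := ⟨embLin 𝕜 W, embLin_norm 𝕜 W⟩

theorem emb_apply (w : W) (v : Idx W) : emb 𝕜 W w v = supp 𝕜 W v w := rfl

/-- The big space: pairs of bounded families whose sum lies in the image of `W`. -/
noncomputable def YY : Submodule 𝕜 (GG 𝕜 W × GG 𝕜 W) :=
  (LinearMap.range (emb 𝕜 W).toLinearMap).comap
    (LinearMap.fst 𝕜 (GG 𝕜 W) (GG 𝕜 W) + LinearMap.snd 𝕜 (GG 𝕜 W) (GG 𝕜 W))

theorem mem_YY (p : GG 𝕜 W × GG 𝕜 W) : p ∈ YY 𝕜 W ↔ ∃ w, emb 𝕜 W w = p.1 + p.2 := by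
  simp [YY]

theorem isClosed_YY [CompleteSpace W] : IsClosed (YY 𝕜 W : Set (GG 𝕜 W × GG 𝕜 W)) := by
  have h1 : IsClosed (Set.range (emb 𝕜 W)) :=
    (emb 𝕜 W).isometry.isClosedEmbedding.isClosed_range
  have h2 : Continuous fun p : GG 𝕜 W × GG 𝕜 W => p.1 + p.2 := by fun_prop
  have h3 : (YY 𝕜 W : Set (GG 𝕜 W × GG 𝕜 W)) =
      (fun p : GG 𝕜 W × GG 𝕜 W => p.1 + p.2) ⁻¹' Set.range (emb 𝕜 W) := by
    ext p
    simp only [SetLike.mem_coe, mem_YY, Set.mem_preimage, Set.mem_range]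
  rw [h3]
  exact h1.preimage h2

instance completeSpace_YY [CompleteSpace W] : CompleteSpace (YY 𝕜 W) :=
  (isClosed_YY 𝕜 W).completeSpace_coe

/-- Evaluation functionals on the big space. -/
noncomputable def evalY (k : Idx W × Bool) : YY 𝕜 W →L[𝕜] 𝕜 :=
  (lp.evalCLM 𝕜 (fun _ : Idx W => 𝕜) ∞ k.1).comp
    ((if k.2 then ContinuousLinearMap.fst 𝕜 (GG 𝕜 W) (GG 𝕜 W)
      else ContinuousLinearMap.snd 𝕜 (GG 𝕜 W) (GG 𝕜 W)).comp (YY 𝕜 W).subtypeL)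

theorem evalY_true (i : Idx W) (p : YY 𝕜 W) : evalY 𝕜 W (i, true) p = p.1.1 i := rfl

theorem evalY_false (i : Idx W) (p : YY 𝕜 W) : evalY 𝕜 W (i, false) p = p.1.2 i := rfl

open Classical in
/-- The vectors of the biorthogonal-like system. -/
noncomputable def vecY (k : Idx W × Bool) : YY 𝕜 W :=
  ⟨((1 / 2 : 𝕜) • emb 𝕜 W k.1.1 + (if k.2 then (1 / 2 : 𝕜) else -(1 / 2)) •
        lp.single ∞ k.1 (1 : 𝕜),
    (1 / 2 : 𝕜) • emb 𝕜 W k.1.1 - (if k.2 then (1 / 2 : 𝕜) else -(1 / 2)) •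
        lp.single ∞ k.1 (1 : 𝕜)), by
    rw [mem_YY]
    refine ⟨k.1.1, ?_⟩
    simp only
    rw [add_add_sub_cancel, ← add_smul]
    norm_num⟩

theorem evalY_le (k : Idx W × Bool) (p : YY 𝕜 W) : ‖evalY 𝕜 W k p‖ ≤ ‖p‖ := by
  obtain ⟨i, s⟩ := k
  cases s
  · rw [evalY_false]
    exact (lp.norm_apply_le_norm ENNReal.top_ne_zero p.1.2 i).trans (norm_snd_le p.1)
  · rw [evalY_true]
    exact (lp.norm_apply_le_norm ENNReal.top_ne_zero p.1.1 i).trans (norm_fst_le p.1)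

theorem norm_le_of_evalY (p : YY 𝕜 W) (r : ℝ) (hr : 0 ≤ r)
    (h : ∀ k, ‖evalY 𝕜 W k p‖ ≤ r) : ‖p‖ ≤ r := by
  have h1 : ‖p.1.1‖ ≤ r := lp.norm_le_of_forall_le hr fun i => h (i, true)
  have h2 : ‖p.1.2‖ ≤ r := lp.norm_le_of_forall_le hr fun i => h (i, false)
  exact max_le h1 h2

open Classical in
theorem vecY_fst_apply (i j : Idx W) (s : Bool) : (vecY 𝕜 W (i, s)).1.1 j =
    (1 / 2 : 𝕜) * supp 𝕜 W j i.1 +
      (if s then (1 / 2 : 𝕜) else -(1 / 2)) * (lp.single ∞ i (1 : 𝕜) : GG 𝕜 W) j := rfl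

open Classical in
theorem vecY_snd_apply (i j : Idx W) (s : Bool) : (vecY 𝕜 W (i, s)).1.2 j =
    (1 / 2 : 𝕜) * supp 𝕜 W j i.1 -
      (if s then (1 / 2 : 𝕜) else -(1 / 2)) * (lp.single ∞ i (1 : 𝕜) : GG 𝕜 W) j := rfl

theorem evalY_vecY_self (k : Idx W × Bool) : evalY 𝕜 W k (vecY 𝕜 W k) = 1 := by
  classical
  obtain ⟨i, s⟩ := k
  cases s
  · rw [evalY_false, vecY_snd_apply, supp_self, lp.single_apply_self]
    norm_num
  · rw [evalY_true, vecY_fst_apply, supp_self, lp.single_apply_self]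
    norm_num

theorem evalY_vecY_ne (j k : Idx W × Bool) (hjk : j ≠ k) :
    ‖evalY 𝕜 W j (vecY 𝕜 W k)‖ ≤ 1 / 2 := by
  classical
  obtain ⟨i, s⟩ := k
  obtain ⟨i', s'⟩ := j
  by_cases hi : i' = i
  · subst hi
    have hs : s' ≠ s := fun h => hjk (by rw [h])
    have h0 : evalY 𝕜 W (i', s') (vecY 𝕜 W (i', s)) = 0 := by
      cases s <;> cases s'
      · exact absurd rfl hs
      · rw [evalY_true, vecY_fst_apply, supp_self, lp.single_apply_self]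
        norm_num
      · rw [evalY_false, vecY_snd_apply, supp_self, lp.single_apply_self]
        norm_num
      · exact absurd rfl hs
    rw [h0, norm_zero]
    norm_num
  · have h1 : evalY 𝕜 W (i', s') (vecY 𝕜 W (i, s)) = (1 / 2 : 𝕜) * supp 𝕜 W i' i.1 := by
      cases s'
      · rw [evalY_false, vecY_snd_apply, lp.single_apply_ne _ _ _ hi]
        ring
      · rw [evalY_true, vecY_fst_apply, lp.single_apply_ne _ _ _ hi]
        ring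
    rw [h1, norm_mul]
    have h2 : ‖(1 / 2 : 𝕜)‖ = 1 / 2 := by simp
    have h3 := supp_le 𝕜 W i' i.1
    rw [i.2] at h3
    rw [h2]
    linarith

theorem vecY_le (k : Idx W × Bool) : ‖vecY 𝕜 W k‖ ≤ 1 := by
  refine norm_le_of_evalY 𝕜 W _ 1 zero_le_one fun j => ?_
  by_cases hjk : j = k
  · subst hjk
    rw [evalY_vecY_self]
    simp
  · exact (evalY_vecY_ne 𝕜 W j k hjk).trans (by norm_num)

/-- The pointwise BPB property passes from `(X, 𝕜)` to `(X, YY)`. -/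
theorem pointwiseBPB_YY {X : Type*} [NormedAddCommGroup X] [NormedSpace 𝕜 X]
    (hX : PointwiseBPB 𝕜 X 𝕜) : PointwiseBPB 𝕜 X (YY 𝕜 W) :=
  pointwiseBPB_of_beta 𝕜 (evalY 𝕜 W) (vecY 𝕜 W) (evalY_le 𝕜 W) (norm_le_of_evalY 𝕜 W)
    (vecY_le 𝕜 W) (evalY_vecY_self 𝕜 W) (evalY_vecY_ne 𝕜 W) hX

/-- The copy of `W` inside the big space. -/
noncomputable def Y1 : Submodule 𝕜 (YY 𝕜 W) :=
  LinearMap.ker ((LinearMap.fst 𝕜 (GG 𝕜 W) (GG 𝕜 W) - LinearMap.snd 𝕜 (GG 𝕜 W) (GG 𝕜 W)).comp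
    (YY 𝕜 W).subtype)

theorem mem_Y1 (p : YY 𝕜 W) : p ∈ Y1 𝕜 W ↔ p.1.1 = p.1.2 := by
  simp [Y1, sub_eq_zero]

theorem isClosed_Y1 : IsClosed (Y1 𝕜 W : Set (YY 𝕜 W)) := by
  have : (Y1 𝕜 W : Set (YY 𝕜 W)) = {p | p.1.1 = p.1.2} := by
    ext p
    simp only [SetLike.mem_coe, mem_Y1, Set.mem_ofPred_eq]
  rw [this]
  exact isClosed_eq (by fun_prop) (by fun_prop)

/-- The diagonal map into the big space. -/
noncomputable def projLin : YY 𝕜 W →ₗ[𝕜] YY 𝕜 W where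
  toFun p := ⟨((1 / 2 : 𝕜) • (p.1.1 + p.1.2), (1 / 2 : 𝕜) • (p.1.1 + p.1.2)), by
    rw [mem_YY]
    obtain ⟨w, hw⟩ := (mem_YY 𝕜 W p.1).1 p.2
    refine ⟨w, ?_⟩
    simp only
    rw [← add_smul, ← hw]
    norm_num⟩
  map_add' p q := by
    ext1
    simp only [Submodule.coe_add, Prod.mk_add_mk, Prod.fst_add, Prod.snd_add]
    congr 1 <;> module
  map_smul' c p := by
    ext1
    simp only [Submodule.coe_smul, Prod.smul_mk, Prod.smul_fst, Prod.smul_snd, RingHom.id_apply]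
    congr 1 <;> module

theorem projLin_apply (p : YY 𝕜 W) :
    (projLin 𝕜 W p).1 = ((1 / 2 : 𝕜) • (p.1.1 + p.1.2), (1 / 2 : 𝕜) • (p.1.1 + p.1.2)) := rfl

theorem projLin_le (p : YY 𝕜 W) : ‖projLin 𝕜 W p‖ ≤ 1 * ‖p‖ := by
  have h0 : ‖(1 / 2 : 𝕜)‖ = 1 / 2 := by simp
  have h1 : ‖(1 / 2 : 𝕜) • (p.1.1 + p.1.2)‖ ≤ ‖p‖ := by
    rw [norm_smul, h0]
    have h2 : ‖p.1.1‖ ≤ ‖p‖ := norm_fst_le p.1
    have h3 : ‖p.1.2‖ ≤ ‖p‖ := norm_snd_le p.1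
    have h4 := norm_add_le p.1.1 p.1.2
    linarith
  rw [one_mul]
  exact max_le h1 h1

/-- The norm-one projection. -/
noncomputable def proj : YY 𝕜 W →L[𝕜] YY 𝕜 W :=
  (projLin 𝕜 W).mkContinuous 1 (projLin_le 𝕜 W)

theorem proj_apply (p : YY 𝕜 W) :
    (proj 𝕜 W p).1 = ((1 / 2 : 𝕜) • (p.1.1 + p.1.2), (1 / 2 : 𝕜) • (p.1.1 + p.1.2)) := rfl

theorem proj_eq_self_iff (p : YY 𝕜 W) : proj 𝕜 W p = p ↔ p ∈ Y1 𝕜 W := by
  rw [mem_Y1]
  constructor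
  · intro h
    have h1 := proj_apply 𝕜 W p
    rw [h] at h1
    have h2 : p.1.1 = (1 / 2 : 𝕜) • (p.1.1 + p.1.2) := congrArg Prod.fst h1
    have h3 : p.1.2 = (1 / 2 : 𝕜) • (p.1.1 + p.1.2) := congrArg Prod.snd h1
    exact h2.trans h3.symm
  · intro h
    apply Subtype.ext
    rw [proj_apply]
    apply Prod.ext
    · simp only
      rw [← h]
      module
    · simp only
      rw [h]
      module

theorem proj_mem (p : YY 𝕜 W) : proj 𝕜 W p ∈ Y1 𝕜 W := by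
  rw [mem_Y1, proj_apply]

/-- The isometric isomorphism between `Y1` and `W`. -/
noncomputable def isoLin : W →ₗ[𝕜] Y1 𝕜 W where
  toFun w := ⟨⟨(emb 𝕜 W w, emb 𝕜 W w), by
    rw [mem_YY]
    exact ⟨w + w, by simp⟩⟩, by
    rw [mem_Y1]⟩
  map_add' w₁ w₂ := by
    ext1; ext1
    simp
  map_smul' c w := by
    ext1; ext1
    simp

theorem isoLin_norm (w : W) : ‖isoLin 𝕜 W w‖ = ‖w‖ := by
  change max ‖emb 𝕜 W w‖ ‖emb 𝕜 W w‖ = ‖w‖
  rw [max_self, LinearIsometry.norm_map]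

theorem isoLin_surjective : Function.Surjective (isoLin 𝕜 W) := by
  intro p
  obtain ⟨w, hw⟩ := (mem_YY 𝕜 W p.1.1).1 p.1.2
  have hp := (mem_Y1 𝕜 W p.1).1 p.2
  refine ⟨(1 / 2 : 𝕜) • w, ?_⟩
  apply Subtype.ext
  apply Subtype.ext
  change (emb 𝕜 W ((1 / 2 : 𝕜) • w), emb 𝕜 W ((1 / 2 : 𝕜) • w)) = p.1.1
  rw [map_smul, hw]
  apply Prod.ext
  · simp only
    rw [← hp]
    module
  · simp only
    rw [hp]
    module

/-- The isometric isomorphism between `Y1` and `W`. -/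
noncomputable def iso : Y1 𝕜 W ≃ₗᵢ[𝕜] W :=
  (LinearIsometryEquiv.ofSurjective (⟨isoLin 𝕜 W, isoLin_norm 𝕜 W⟩ : W →ₗᵢ[𝕜] Y1 𝕜 W)
    (isoLin_surjective 𝕜 W)).symm

theorem oneComplemented_Y1 [Nontrivial W] : OneComplemented 𝕜 (Y1 𝕜 W) := by
  refine ⟨proj 𝕜 W, fun y => ?_, ?_, fun y => ?_⟩
  · exact (proj_eq_self_iff 𝕜 W _).2 (proj_mem 𝕜 W y)
  · apply le_antisymm
    · exact LinearMap.mkContinuous_norm_le _ zero_le_one _
    · obtain ⟨w, hw⟩ := exists_ne (0 : W)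
      have h1 : ‖((isoLin 𝕜 W w : Y1 𝕜 W) : YY 𝕜 W)‖ = ‖w‖ := isoLin_norm 𝕜 W w
      have h2 := (proj 𝕜 W).le_opNorm ((isoLin 𝕜 W w : Y1 𝕜 W) : YY 𝕜 W)
      rw [(proj_eq_self_iff 𝕜 W _).2 (isoLin 𝕜 W w).2, h1] at h2
      have h3 : 0 < ‖w‖ := norm_pos_iff.2 hw
      by_contra hlt
      push Not at hlt
      nlinarith
  · constructor
    · intro hy
      exact ⟨y, (proj_eq_self_iff 𝕜 W y).2 hy⟩
    · rintro ⟨z, rfl⟩
      exact proj_mem 𝕜 W z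

end Pool.Agent.Lib.MP_7aa09c_an
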